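import Pool.Agent.Y352.DP.No1

/-! The functions with poles only at infinity on an elliptic curve. -/

set_option autoImplicit false
set_option linter.unusedSectionVars false

namespace Pool.Agent.Y352.DP

open FF Pool.Agent.W603.LV Pool.Agent.Y166.DP

section
variable {k K : Type} [Field k] [Field K] [Algebra k K]

theorem fn_zero (x y : K) : fn x y 0 = 1 := by simp [fn]

theorem fn_ne_zero {x y : K} (hx : x ≠ 0) (hy : y ≠ 0) (j : ℕ) : fn x y j ≠ 0 := by
  unfold fn
  split_ifs
  · exact one_ne_zero
  · exact pow_ne_zero _ hx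
  · exact mul_ne_zero (pow_ne_zero _ hx) hy

theorem ord_fn {o : Place k K} {x y : K} (hx : x ≠ 0) (hy : y ≠ 0) (hox : o.ord x = -2)
    (hoy : o.ord y = -3) (j : ℕ) :
    o.ord (fn x y j) = if j = 0 then 0 else -((j : ℤ) + 1) := by
  unfold fn
  split_ifs with h1 h2
  · exact o.ord_one
  · rw [o.ord_pow, hox]
    omega
  · rw [o.ord_mul (pow_ne_zero _ hx) hy, o.ord_pow, hox, hoy]
    omega

theorem reg_fn {P : Place k K} {x y : K} (hx : Ge P 0 x) (hy : Ge P 0 y) (j : ℕ) :
    Ge P 0 (fn x y j) := by
  unfold fn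
  split_ifs with h1 h2
  · exact Ge.one
  · simpa using hx.pow ((j + 1) / 2)
  · simpa using (hx.pow ((j - 2) / 2)).mul hy

theorem fsum_castSucc (x y : K) {N : ℕ} (c : Fin (N + 1) → k) :
    fsum x y c = fsum x y (fun j : Fin N => c j.castSucc) +
      algebraMap k K (c (Fin.last N)) * fn x y N := by
  unfold fsum
  rw [Fin.sum_univ_castSucc]
  simp

theorem ge_fsum {o : Place k K} {x y : K} (hx : x ≠ 0) (hy : y ≠ 0) (hox : o.ord x = -2)
    (hoy : o.ord y = -3) {N : ℕ} (c : Fin N → k) : Ge o (-(N : ℤ)) (fsum x y c) := by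
  refine Ge.sum _ _ fun j _ => ?_
  have h1 : Ge o (-(N : ℤ)) (fn x y j) := by
    right
    rw [ord_fn hx hy hox hoy]
    have := j.2
    split_ifs <;> omega
  simpa using (Ge.const (P := o) (c j)).mul h1

theorem reg_fsum {P : Place k K} {x y : K} (hx : Ge P 0 x) (hy : Ge P 0 y) {N : ℕ}
    (c : Fin N → k) : Ge P 0 (fsum x y c) := by
  refine Ge.sum _ _ fun j _ => ?_
  simpa using (Ge.const (P := P) (c j)).mul (reg_fn hx hy j)

theorem fsum_indep {o : Place k K} {x y : K} (hx : x ≠ 0) (hy : y ≠ 0) (hox : o.ord x = -2)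
    (hoy : o.ord y = -3) : ∀ (N : ℕ) (c : Fin N → k), fsum x y c = 0 → c = 0 := by
  intro N
  induction N with
  | zero => intro c _; exact Subsingleton.elim _ _
  | succ N ih =>
    intro c hc
    rw [fsum_castSucc] at hc
    have hl : c (Fin.last N) = 0 := by
      by_contra hne
      have hne' : algebraMap k K (c (Fin.last N)) ≠ 0 := by simpa using hne
      set t := algebraMap k K (c (Fin.last N)) * fn x y N with ht
      have ht0 : t ≠ 0 := mul_ne_zero hne' (fn_ne_zero hx hy N)
      have hto : o.ord t = if N = 0 then 0 else -((N : ℤ) + 1) := by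
        rw [ht, o.ord_mul hne' (fn_ne_zero hx hy N), o.ord_const hne, ord_fn hx hy hox hoy,
          zero_add]
      rcases Nat.eq_zero_or_pos N with hN | hN
      · subst hN
        have : fsum x y (fun j : Fin 0 => c j.castSucc) = 0 := by simp [fsum]
        rw [this, zero_add] at hc
        exact ht0 hc
      · rw [if_neg hN.ne'] at hto
        have h2 := ge_fsum hx hy hox hoy (fun j : Fin N => c j.castSucc)
        have h3 := ord_of_add o (f := fsum x y (fun j : Fin N => c j.castSucc)) ht0 hto
          (by simpa using h2)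
        rw [add_comm] at hc
        exact h3.1 hc
    rw [hl, map_zero, zero_mul, add_zero] at hc
    have h4 := ih _ hc
    funext j
    refine Fin.lastCases ?_ (fun i => ?_) j
    · exact hl
    · exact congrFun h4 i

end

theorem ell_facts {k K : Type} [Field k] [Field K] [Algebra k K] [CharZero k] {lam : k} {x y : K}
    (hE : Ell k K lam x y) : x ≠ 0 ∧ y ≠ 0 := by
  have h0 : ∀ c : k, x ≠ algebraMap k K c := by
    intro c h
    exact hE.tr (h ▸ isAlgebraic_algebraMap c)
  refine ⟨by simpa using h0 0, ?_⟩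
  intro hy
  have h1 := hE.eqn
  rw [hy, zero_pow two_ne_zero] at h1
  have h2 : x ≠ 0 := by simpa using h0 0
  have h3 : x - 1 ≠ 0 := sub_ne_zero.2 (by simpa using h0 1)
  have h4 : x - algebraMap k K lam ≠ 0 := sub_ne_zero.2 (h0 lam)
  exact mul_ne_zero (mul_ne_zero h2 h3) h4 h1.symm

/-- The point at infinity. -/
theorem inf_facts (hInf : StmInf) {k K : Type} [Field k] [Field K] [Algebra k K] [CharZero k]
    [IsAlgClosed k] [IsFF k K] {lam : k} {x y : K} (hE : Ell k K lam x y) {o : Place k K}
    (ho : o.ord x < 0) : o.ord x = -2 ∧ o.ord y = -3 ∧ ∀ P, P ≠ o → Ge P 0 x ∧ Ge P 0 y := by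
  obtain ⟨o', h1, h2, h3⟩ := hInf k K lam x y hE
  by_cases h : o = o'
  · subst h
    exact ⟨h1, h2, h3⟩
  · exfalso
    have := ((h3 o h).1).resolve_left (ell_facts hE).1
    omega

theorem stmBasis (hInf : StmInf) (hNo : StmNo1) : StmBasis := by
  intro k K _ _ _ _ _ _ lam x y hE o ho
  obtain ⟨hox, hoy, hreg⟩ := inf_facts hInf hE ho
  obtain ⟨hx, hy⟩ := ell_facts hE
  refine ⟨fun j => ⟨fn_ne_zero hx hy j, ord_fn hx hy hox hoy j⟩,
    fun N c => fsum_indep hx hy hox hoy N c, ?_⟩
  intro N hN f
  constructor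
  · rintro ⟨h1, h2⟩
    induction N, hN using Nat.le_induction generalizing f with
    | base =>
      have h3 : ∀ P : Place k K, Ge P 0 f := by
        by_contra hcon
        push Not at hcon
        obtain ⟨P, hP⟩ := hcon
        have hPo : P = o := by
          by_contra hne
          exact hP (h1 P hne)
        subst hPo
        have hf0 : f ≠ 0 := fun h => hP (Or.inl h)
        have h4 : P.ord f = -1 := by
          have h5 := h2.resolve_left hf0
          have h6 : ¬ 0 ≤ P.ord f := fun h => hP (Or.inr h)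
          push_cast at h5
          omega
        exact hNo k K lam x y hE f P h4 h1
      obtain ⟨c, hc⟩ := const_of_reg h3
      refine ⟨fun _ => c, ?_⟩
      simp [fsum, fn_zero, hc]
    | succ N hN ih =>
      have hfn : o.ord (fn x y N) = -((N : ℤ) + 1) := by
        rw [ord_fn hx hy hox hoy, if_neg (by omega)]
      have hfn0 := fn_ne_zero hx hy N
      have h3 : Ge o 0 (f / fn x y N) := by
        refine Ge.of_mul' (h := fn x y N) hfn0 hfn ?_
        rw [mul_div_cancel₀ _ hfn0]
        simpa using h2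
      obtain ⟨c, hc⟩ := exists_const o h3
      have h4 : Ge o (-(N : ℤ)) (f - algebraMap k K c * fn x y N) := by
        have h5 : f - algebraMap k K c * fn x y N =
            (f / fn x y N - algebraMap k K c) * fn x y N := by
          rw [sub_mul, div_mul_cancel₀ _ hfn0]
        rw [h5]
        have h6 : Ge o (-((N : ℤ) + 1)) (fn x y N) := Or.inr hfn.ge
        refine (hc.mul h6).mono ?_
        omega
      obtain ⟨d, hd⟩ := ih (f - algebraMap k K c * fn x y N) (by
        intro P hP
        refine (h1 P hP).sub ?_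
        simpa using (Ge.const (P := P) c).mul (reg_fn (hreg P hP).1 (hreg P hP).2 N)) h4
      refine ⟨Fin.snoc (α := fun _ => k) d c, ?_⟩
      rw [fsum_castSucc]
      simp only [Fin.snoc_castSucc, Fin.snoc_last]
      rw [← hd]
      ring
  · rintro ⟨c, rfl⟩
    exact ⟨fun P hP => reg_fsum (hreg P hP).1 (hreg P hP).2 c, ge_fsum hx hy hox hoy c⟩

end Pool.Agent.Y352.DP
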