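import Pool.Agent.Y352.DP.Prime
import Pool.Agent.Y352.DP.Basis

/-! There are no sections of odd height over a line. -/

set_option autoImplicit false
set_option linter.unusedSectionVars false

namespace Pool.Agent.Y352.DP

open Polynomial FF IntermediateField Pool.Agent.W603.LV Pool.Agent.Y166.DP

section
variable {k K : Type} [Field k] [Field K] [Algebra k K]

theorem mo_pair (P : Place k K) (z : K) : mo P ![z, 1] = min (P.ord z) 0 := by
  by_cases hz : z = 0
  · subst hz
    rw [mo_eq P (g := ![(0 : K), 1]) (i := 1) (by simp)]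
    · simp [P.ord_one, P.ord_zero]
    · intro j
      fin_cases j
      · left; simp
      · right; simp
  rcases le_total (P.ord z) 0 with h | h
  · rw [min_eq_left h, mo_eq P (g := ![z, 1]) (i := 0) (by simpa using hz)]
    · simp
    · intro j
      fin_cases j
      · right; simp
      · right; simpa [P.ord_one] using h
  · rw [min_eq_right h, mo_eq P (g := ![z, 1]) (i := 1) (by simp)]
    · simp [P.ord_one]
    · intro j
      fin_cases j
      · right; simpa [P.ord_one] using h
      · right; simp

/-- Every nonzero polynomial is a square times a polynomial without double roots. -/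
theorem exists_sq_mul : ∀ (n : ℕ) (Q : k[X]), Q.natDegree = n → Q ≠ 0 →
    ∃ R S : k[X], Q = R ^ 2 * S ∧ ∀ r, ¬ (X - C r) ^ 2 ∣ S := by
  intro n
  induction n using Nat.strong_induction_on with
  | _ n ih =>
    intro Q hn hQ
    by_cases h : ∃ r, (X - C r) ^ 2 ∣ Q
    · obtain ⟨r, Q₁, hQ₁⟩ := h
      have h1 : Q₁ ≠ 0 := by
        rintro rfl
        rw [mul_zero] at hQ₁
        exact hQ hQ₁
      have h2 : Q.natDegree = 2 + Q₁.natDegree := by
        rw [hQ₁, natDegree_mul (pow_ne_zero _ (X_sub_C_ne_zero r)) h1, natDegree_pow,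
          natDegree_X_sub_C]
      obtain ⟨R, S, hRS, hS⟩ := ih Q₁.natDegree (by omega) Q₁ rfl h1
      exact ⟨(X - C r) * R, S, by rw [hQ₁, hRS]; ring, hS⟩
    · push Not at h
      exact ⟨1, Q, by ring, h⟩

variable [CharZero k] [IsFF k K] [IsAlgClosed k]

theorem ht_pair (z : K) : ht k ![z, 1] = ddeg (polar (k := k) z) := by
  unfold ddeg ht Finsupp.sum
  rw [← finsum_neg_distrib, finsum_eq_sum_of_support_subset (s := (polar (k := k) z).support)]
  · refine Finset.sum_congr rfl fun P _ => ?_
    beta_reduce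
    rw [deg_one, Nat.cast_one, mul_one, polar_apply, mo_pair]
    omega
  · intro P hP
    simp only [Function.mem_support, ne_eq, neg_eq_zero] at hP
    rw [Finset.mem_coe, Finsupp.mem_support_iff, polar_apply]
    rw [mo_pair] at hP
    omega

theorem adjoin_sub_const (z : K) (c : k) : k⟮z - algebraMap k K c⟯ = k⟮z⟯ := by
  apply le_antisymm
  · rw [adjoin_simple_le_iff]
    exact sub_mem (mem_adjoin_simple_self k z) (IntermediateField.algebraMap_mem _ c)
  · rw [adjoin_simple_le_iff]
    have := add_mem (mem_adjoin_simple_self k (z - algebraMap k K c))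
      (IntermediateField.algebraMap_mem k⟮z - algebraMap k K c⟯ c)
    rwa [sub_add_cancel] at this

/-- If all zeros of `z - c` have even multiplicity then the degree of `z` is even. -/
theorem even_of_even {z : K} (hz : Transcendental k z) (c : k)
    (h : ∀ P : Place k K, 0 < P.ord (z - algebraMap k K c) →
      Even (P.ord (z - algebraMap k K c))) : Even (ht k ![z, 1]) := by
  have hvc : Transcendental k (z - algebraMap k K c) := by
    intro h
    apply hz
    have := h.add (isAlgebraic_algebraMap c)
    rwa [sub_add_cancel] at this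
  obtain ⟨S, hS1, -, hS3⟩ := zeros hvc
  rw [adjoin_sub_const] at hS3
  rw [ht_pair, ddeg_polar hz, ← hS3]
  push_cast
  apply Finset.even_sum
  intro P hP
  have h1 := (hS1 P).1 hP
  obtain ⟨m, hm⟩ := h P h1
  refine Even.mul_right ?_ _
  rw [Int.toNat_of_nonneg h1.le]
  exact ⟨m, hm⟩

theorem ord_aeval_zero {P : Place k K} {z : K} {c : k} (h : 0 < P.ord (z - algebraMap k K c))
    (S : k[X]) (hS : S.eval c ≠ 0) : aeval z S ≠ 0 ∧ P.ord (aeval z S) = 0 := by
  have hvc : Ge P 1 (z - algebraMap k K c) := Or.inr h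
  have hvreg : Ge P 0 z := by
    have := (hvc.mono (by omega : (0 : ℤ) ≤ 1)).add (Ge.const (P := P) c)
    rwa [sub_add_cancel] at this
  obtain ⟨A', hA'⟩ := X_sub_C_dvd_sub_C_eval (a := c) (p := S)
  have hXc : aeval z (X - C c) = z - algebraMap k K c := by
    rw [map_sub, aeval_X, aeval_C]
  have h2 : aeval z S - algebraMap k K (S.eval c) = (z - algebraMap k K c) * aeval z A' := by
    rw [← hXc, ← map_mul, ← hA', map_sub, aeval_C]
  apply ord_of_sub P (g := algebraMap k K (S.eval c)) (by simpa using hS) (P.ord_const hS)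
  rw [h2]
  simpa using hvc.mul (ge_aeval P hvreg A')

end

/-- The order of `x` is even. -/
theorem even_ord_x (hInf : StmInf) {k K : Type} [Field k] [Field K] [Algebra k K] [CharZero k]
    [IsAlgClosed k] [IsFF k K] {lam : k} {x y : K} (hE : Ell k K lam x y) (P : Place k K) :
    Even (P.ord x) := by
  obtain ⟨o, hox, hoy, ho⟩ := hInf k K lam x y hE
  obtain ⟨hx, hy⟩ := ell_facts hE
  by_cases hP : P = o
  · subst hP
    rw [hox]
    exact ⟨-1, by ring⟩
  have h1 := (ho P hP).1.resolve_left hx
  rcases h1.eq_or_lt with h2 | h2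
  · rw [← h2]
    exact ⟨0, rfl⟩
  have h3 : ∀ c : k, c ≠ 0 → x - algebraMap k K c ≠ 0 ∧ P.ord (x - algebraMap k K c) = 0 := by
    intro c hc
    apply ord_of_sub P (g := -algebraMap k K c) (by simpa using hc)
      (by rw [P.ord_neg, P.ord_const hc])
    have : x - algebraMap k K c - -algebraMap k K c = x := by ring
    rw [this]
    exact Or.inr (by omega)
  have h4 := h3 1 one_ne_zero
  rw [map_one] at h4
  have h5 := h3 lam hE.lam0
  have h6 := congrArg P.ord hE.eqn
  rw [P.ord_pow, P.ord_mul (mul_ne_zero hx h4.1) h5.1, P.ord_mul hx h4.1, h4.2, h5.2] at h6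
  refine ⟨P.ord y, ?_⟩
  push_cast at h6
  omega

/-- The main argument, in coordinates. -/
theorem line_core (hInf : StmInf) (hNo : StmNo1) {k K : Type} [Field k] [Field K] [Algebra k K]
    [CharZero k] [IsAlgClosed k] [IsFF k K] {lam : k} {x y : K} (hE : Ell k K lam x y)
    (s t h : K) (α β : k)
    (hh : h ^ 2 = x * (s ^ 4 + t ^ 4 + (algebraMap k K α * s + algebraMap k K β * t) ^ 4))
    (hodd : Odd (ht k ![s, t])) : False := by
  obtain ⟨hx, hy⟩ := ell_facts hE
  have ht0 : t ≠ 0 := by
    rintro rfl
    by_cases hs : s = 0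
    · subst hs
      have : ht k ![(0 : K), 0] = 0 := by
        unfold ht
        have h0 : (![(0 : K), 0] : Fin 2 → K) = 0 := by
          ext i
          fin_cases i <;> rfl
        rw [h0]
        simp [mo_zero]
      rw [this] at hodd
      simp at hodd
    · have h1 : (![s, 0] : Fin 2 → K) = fun i => s * (![1, 0] : Fin 2 → K) i := by
        ext i
        fin_cases i <;> simp
      have h2 : (![1, 0] : Fin 2 → K) ≠ 0 := fun h => one_ne_zero (congrFun h 0)
      rw [h1, ht_smul h2 hs] at hodd
      have h3 : ht k (![1, 0] : Fin 2 → K) = 0 := by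
        unfold ht
        have h4 : ∀ P : Place k K, mo P (![1, 0] : Fin 2 → K) = 0 := by
          intro P
          rw [mo_eq P (g := ![(1 : K), 0]) (i := 0) (by simp)]
          · simp [P.ord_one]
          · intro j
            fin_cases j
            · right; simp
            · left; simp
        simp [h4]
      rw [h3] at hodd
      simp at hodd
  set z : K := s / t with hz
  have hst : (![s, t] : Fin 2 → K) = fun i => t * (![z, 1] : Fin 2 → K) i := by
    ext i
    fin_cases i
    · simp [hz, mul_div_cancel₀ _ ht0]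
    · simp
  have hne1 : (![z, 1] : Fin 2 → K) ≠ 0 := fun h => one_ne_zero (congrFun h 1)
  rw [hst, ht_smul hne1 ht0] at hodd
  have hzt : Transcendental k z := by
    obtain ⟨P, hP⟩ : ∃ P : Place k K, mo P ![z, 1] ≠ 0 := by
      by_contra hcon
      push Not at hcon
      have : ht k ![z, 1] = 0 := by
        unfold ht
        simp [hcon]
      rw [this] at hodd
      simp at hodd
    apply P.transcendental_of_ord_ne
    intro h
    rw [mo_pair, h, min_self] at hP
    exact hP rfl
  set Q : k[X] := X ^ 4 + 1 + (C α * X + C β) ^ 4 with hQ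
  have hQ0 : Q ≠ 0 := by
    intro h0
    have e : ∀ c : k, c ^ 4 + 1 + (α * c + β) ^ 4 = 0 := by
      intro c
      have := congrArg (eval c) h0
      simpa [hQ] using this
    have e0 := e 0
    have e1 := e 1
    have e2 := e (-1)
    have e3 := e 2
    have e4 := e (-2)
    have c4 : 1 + α ^ 4 = 0 := by
      have : (24 : k) * (1 + α ^ 4) = 0 := by
        linear_combination e3 + e4 - 4 * e1 - 4 * e2 + 6 * e0
      simpa using this
    have c2 : α ^ 2 * β ^ 2 = 0 := by
      have : (12 : k) * (α ^ 2 * β ^ 2) = 0 := by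
        linear_combination e1 + e2 - 2 * e0 - 2 * c4
      simpa using this
    have c0 : 1 + β ^ 4 = 0 := by linear_combination e0
    have : (1 : k) = 0 := by
      linear_combination c0 - β ^ 4 * c4 + α ^ 2 * β ^ 2 * c2
    exact one_ne_zero this
  obtain ⟨R, S, hRS, hS⟩ := exists_sq_mul Q.natDegree Q rfl hQ0
  have hR0 : R ≠ 0 := by
    rintro rfl
    apply hQ0
    rw [hRS]
    ring
  have hS0 : S ≠ 0 := by
    rintro rfl
    apply hQ0
    rw [hRS, mul_zero]
  have hinj := transcendental_iff_injective.1 hzt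
  have hRz : aeval z R ≠ 0 := by
    intro h0
    exact hR0 (hinj (by rw [h0, map_zero]))
  have hSz : aeval z S ≠ 0 := by
    intro h0
    exact hS0 (hinj (by rw [h0, map_zero]))
  have hQz : s ^ 4 + t ^ 4 + (algebraMap k K α * s + algebraMap k K β * t) ^ 4 =
      t ^ 4 * aeval z Q := by
    have : s = z * t := by rw [hz, div_mul_cancel₀ _ ht0]
    rw [this, hQ]
    simp only [map_add, map_mul, map_pow, aeval_X, aeval_C, map_one]
    ring
  set w : K := h / (t ^ 2 * aeval z R) with hw
  have hw2 : w ^ 2 = x * aeval z S := by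
    rw [hw, div_pow, hh, hQz, hRS, map_mul, map_pow]
    field_simp
  have hw0 : w ≠ 0 := by
    intro h0
    rw [h0] at hw2
    exact mul_ne_zero hx hSz (by rw [← hw2]; ring)
  have hnoroot : ∀ r, ¬ S.IsRoot r := by
    intro r hr
    obtain ⟨S', hS'⟩ := dvd_iff_isRoot.2 hr
    have hS'r : S'.eval r ≠ 0 := by
      intro h0
      obtain ⟨S'', hS''⟩ := dvd_iff_isRoot.2 h0
      exact hS r ⟨S'', by rw [hS', hS'']; ring⟩
    rw [← Int.not_even_iff_odd] at hodd
    apply hodd
    apply even_of_even hzt r
    intro P hP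
    obtain ⟨h1, h2⟩ := ord_aeval_zero hP S' hS'r
    have h3 : z - algebraMap k K r ≠ 0 := by
      intro h0
      rw [h0, P.ord_zero] at hP
      omega
    have h4 := congrArg P.ord hw2
    have h5 : aeval z S = (z - algebraMap k K r) * aeval z S' := by
      rw [hS', map_mul, map_sub, aeval_X, aeval_C]
    rw [P.ord_pow, P.ord_mul hx hSz, h5, P.ord_mul h3 h1, h2] at h4
    obtain ⟨m, hm⟩ := even_ord_x hInf hE P
    refine ⟨P.ord w - m, ?_⟩
    push_cast at h4
    omega
  have hSdeg : S.degree = 0 := by
    by_contra hne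
    obtain ⟨r, hr⟩ := IsAlgClosed.exists_root S hne
    exact hnoroot r hr
  obtain ⟨c, hc⟩ : ∃ c, S = C c := ⟨_, eq_C_of_degree_eq_zero hSdeg⟩
  have hc0 : c ≠ 0 := by
    rintro rfl
    exact hS0 (by rw [hc, C_0])
  obtain ⟨d, hd⟩ := IsAlgClosed.exists_pow_nat_eq c (n := 2) (by norm_num)
  have hd0 : d ≠ 0 := by
    rintro rfl
    apply hc0
    rw [← hd]
    ring
  have hd0' : algebraMap k K d ≠ 0 := by simpa using hd0
  set v : K := w / algebraMap k K d with hv
  have hv2 : v ^ 2 = x := by
    rw [hv, div_pow, hw2, hc, aeval_C, ← map_pow, hd]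
    have : algebraMap k K c ≠ 0 := by simpa using hc0
    field_simp
  have hv0 : v ≠ 0 := div_ne_zero hw0 hd0'
  obtain ⟨o, hox, -, ho⟩ := hInf k K lam x y hE
  have hvo : ∀ P : Place k K, 2 * P.ord v = P.ord x := by
    intro P
    have := congrArg P.ord hv2
    rw [P.ord_pow] at this
    exact_mod_cast this
  refine hNo k K lam x y hE v o ?_ ?_
  · have := hvo o
    omega
  · intro P hP
    right
    have h1 := hvo P
    have h2 := (ho P hP).1.resolve_left hx
    omega

theorem stmLine (hInf : StmInf) (hNo : StmNo1) : StmLine := by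
  intro k K _ _ _ _ _ _ lam x y hE g h hh hodd a ha hsum
  rw [Fin.sum_univ_three] at hsum
  obtain ⟨j, hj⟩ := Function.ne_iff.1 ha
  have key : ∀ (s t : K) (α β : k), (∀ i, ∃ p q : k, g i = algebraMap k K p * s +
      algebraMap k K q * t) → (∃ i, s = g i) → (∃ i, t = g i) →
      quart g = s ^ 4 + t ^ 4 + (algebraMap k K α * s + algebraMap k K β * t) ^ 4 → False := by
    intro s t α β h1 h2 h3 h4
    rw [h4] at hh
    refine line_core hInf hNo hE s t h α β hh ?_
    have hg : g ≠ 0 := by
      rintro rfl
      have : ht k (0 : Fin 3 → K) = 0 := by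
        unfold ht
        simp [mo_zero]
      rw [this] at hodd
      simp at hodd
    have hst : (![s, t] : Fin 2 → K) ≠ 0 := by
      intro h0
      have hs : s = 0 := congrFun h0 0
      have ht : t = 0 := congrFun h0 1
      apply hg
      funext i
      obtain ⟨p, q, hpq⟩ := h1 i
      rw [hpq, hs, ht]
      simp
    have e : ht k ![s, t] = ht k g := by
      apply le_antisymm
      · apply ht_le_of_comb hst
        intro j
        obtain ⟨i1, hi1⟩ := h2
        obtain ⟨i2, hi2⟩ := h3
        have hsel : ∀ i0 : Fin 3, ∃ a : Fin 3 → k, g i0 = ∑ᶠ i, algebraMap k K (a i) * g i := by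
          intro i0
          refine ⟨Pi.single i0 1, ?_⟩
          rw [finsum_eq_sum_of_fintype, Finset.sum_eq_single i0]
          · simp
          · intro j _ hj
            rw [Pi.single_eq_of_ne hj]
            simp
          · simp
        fin_cases j
        · show ∃ a : Fin 3 → k, s = _
          rw [hi1]
          exact hsel i1
        · show ∃ a : Fin 3 → k, t = _
          rw [hi2]
          exact hsel i2
      · apply ht_le_of_comb hg
        intro i
        obtain ⟨p, q, hpq⟩ := h1 i
        refine ⟨![p, q], ?_⟩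
        rw [finsum_eq_sum_of_fintype, Fin.sum_univ_two, hpq]
        simp
    rw [e]
    exact hodd
  have hrel : ∀ (u s t : K) (b p q : k), b ≠ 0 → algebraMap k K b * u + algebraMap k K p * s +
      algebraMap k K q * t = 0 → u = algebraMap k K (-p / b) * s + algebraMap k K (-q / b) * t := by
    intro u s t b p q hb h
    have hb' : algebraMap k K b ≠ 0 := by simpa using hb
    rw [map_div₀, map_div₀, map_neg, map_neg]
    field_simp
    linear_combination h
  fin_cases j
  · have h0 := hrel (g 0) (g 1) (g 2) (a 0) (a 1) (a 2) hj (by linear_combination hsum)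
    refine key (g 1) (g 2) (-a 1 / a 0) (-a 2 / a 0) ?_ ⟨1, rfl⟩ ⟨2, rfl⟩ ?_
    · intro i
      fin_cases i
      · exact ⟨_, _, h0⟩
      · exact ⟨1, 0, by simp⟩
      · exact ⟨0, 1, by simp⟩
    · rw [← h0]
      unfold quart
      ring
  · have h0 := hrel (g 1) (g 0) (g 2) (a 1) (a 0) (a 2) hj (by linear_combination hsum)
    refine key (g 0) (g 2) (-a 0 / a 1) (-a 2 / a 1) ?_ ⟨0, rfl⟩ ⟨2, rfl⟩ ?_
    · intro i
      fin_cases i
      · exact ⟨1, 0, by simp⟩
      · exact ⟨_, _, h0⟩
      · exact ⟨0, 1, by simp⟩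
    · rw [← h0]
      unfold quart
      ring
  · have h0 := hrel (g 2) (g 0) (g 1) (a 2) (a 0) (a 1) hj (by linear_combination hsum)
    refine key (g 0) (g 1) (-a 0 / a 2) (-a 1 / a 2) ?_ ⟨0, rfl⟩ ⟨1, rfl⟩ ?_
    · intro i
      fin_cases i
      · exact ⟨1, 0, by simp⟩
      · exact ⟨0, 1, by simp⟩
      · exact ⟨_, _, h0⟩
    · rw [← h0]
      unfold quart
      ring

end Pool.Agent.Y352.DP
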