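import Pool.Agent.Y166.DP.Stm

/-! There is no function of degree one on an elliptic curve. -/

set_option autoImplicit false
set_option linter.unusedSectionVars false

namespace Pool.Agent.Y352.DP

open Polynomial FF Pool.Agent.W603.LV Pool.Agent.Y166.DP

section
variable {k K : Type} [Field k] [Field K] [Algebra k K]

theorem ord_of_sub (P : Place k K) {f g : K} {n : ℤ} (hg : g ≠ 0) (hn : P.ord g = n)
    (h : Ge P (n + 1) (f - g)) : f ≠ 0 ∧ P.ord f = n := by
  rcases h with h | h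
  · rw [sub_eq_zero] at h
    subst h
    exact ⟨hg, hn⟩
  · by_cases h0 : f - g = 0
    · rw [sub_eq_zero] at h0
      subst h0
      exact ⟨hg, hn⟩
    have := P.ord_add_eq hg h0 (by omega)
    rw [add_sub_cancel] at this
    exact ⟨this.1, by rw [this.2, hn]⟩

/-- A sum of a function of order `n` and a function of higher order. -/
theorem ord_of_add (P : Place k K) {f g : K} {n : ℤ} (hg : g ≠ 0) (hn : P.ord g = n)
    (h : Ge P (n + 1) f) : g + f ≠ 0 ∧ P.ord (g + f) = n :=
  ord_of_sub P hg hn (by rwa [add_sub_cancel_left])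

theorem not_ge_of_ord {P : Place k K} {f : K} {n m : ℤ} (hf : f ≠ 0) (hn : P.ord f = n)
    (hm : n < m) : ¬ Ge P m f := by
  rintro (h | h)
  · exact hf h
  · omega

theorem ord_ge_of {P : Place k K} {f : K} {n : ℤ} (h : Ge P n f) (hf : f ≠ 0) : n ≤ P.ord f :=
  h.resolve_left hf

variable [CharZero k] [IsFF k K] [IsAlgClosed k]

/-- A function without poles is constant. -/
theorem const_of_reg {f : K} (h : ∀ P : Place k K, Ge P 0 f) : ∃ c : k, f = algebraMap k K c := by
  by_cases hf : f = 0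
  · exact ⟨0, by rw [hf, map_zero]⟩
  apply const_of_hgt (k := k)
  unfold hgt
  rw [finsum_eq_zero_of_forall_eq_zero]
  intro P
  have := (h P).resolve_left hf
  exact max_eq_right (by omega)

/-- A function with poles only at `o` is a polynomial in a function with a simple pole at `o`. -/
theorem poly_of_reg {o : Place k K} {F : K} (hF : o.ord F = -1) (hF' : ∀ P, P ≠ o → Ge P 0 F)
    (n : ℕ) : ∀ u : K, (∀ P, P ≠ o → Ge P 0 u) → Ge o (-(n : ℤ)) u → ∃ p : k[X], u = aeval F p := by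
  have hF0 : F ≠ 0 := by
    rintro rfl
    rw [o.ord_zero] at hF
    omega
  induction n with
  | zero =>
    intro u h1 h2
    obtain ⟨c, hc⟩ := const_of_reg (k := k) (f := u) (by
      intro P
      by_cases hP : P = o
      · subst hP
        simpa using h2
      · exact h1 P hP)
    exact ⟨C c, by rw [hc, aeval_C]⟩
  | succ n ih =>
    intro u h1 h2
    have hpow : o.ord (F ^ (n + 1)) = -((n + 1 : ℕ) : ℤ) := by
      rw [o.ord_pow, hF]
      push_cast
      ring
    have h3 : Ge o 0 (u / F ^ (n + 1)) := by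
      refine Ge.of_mul' (h := F ^ (n + 1)) (pow_ne_zero _ hF0) hpow ?_
      rw [mul_div_cancel₀ _ (pow_ne_zero _ hF0)]
      simpa using h2
    obtain ⟨c, hc⟩ := exists_const o h3
    have h4 : Ge o (-(n : ℤ)) (u - algebraMap k K c * F ^ (n + 1)) := by
      have h5 : u - algebraMap k K c * F ^ (n + 1) =
          (u / F ^ (n + 1) - algebraMap k K c) * F ^ (n + 1) := by
        rw [sub_mul, div_mul_cancel₀ _ (pow_ne_zero _ hF0)]
      rw [h5]
      have h6 : Ge o (-((n + 1 : ℕ) : ℤ)) (F ^ (n + 1)) := Or.inr hpow.ge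
      have h7 := hc.mul h6
      refine h7.mono ?_
      push_cast
      omega
    obtain ⟨p, hp⟩ := ih (u - algebraMap k K c * F ^ (n + 1)) (by
      intro P hP
      refine (h1 P hP).sub ?_
      have h8 : Ge P (0 + ((n + 1 : ℕ) : ℤ) * 0) (algebraMap k K c * F ^ (n + 1)) :=
        (Ge.const c).mul ((hF' P hP).pow (n + 1))
      simpa using h8) h4
    refine ⟨p + C c * X ^ (n + 1), ?_⟩
    rw [map_add, ← hp, map_mul, aeval_C, map_pow, aeval_X]
    ring

/-- Move the simple pole of a function of degree one. -/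
theorem move_pole {f : K} {P₀ : Place k K} (h0 : P₀.ord f = -1) (h1 : ∀ P, P ≠ P₀ → Ge P 0 f)
    (o : Place k K) : ∃ F : K, o.ord F = -1 ∧ ∀ P, P ≠ o → Ge P 0 F := by
  classical
  by_cases hP : o = P₀
  · subst hP
    exact ⟨f, h0, h1⟩
  obtain ⟨c, hc⟩ := exists_const o (h1 o hP)
  have hf0 : f ≠ 0 := by
    rintro rfl
    rw [P₀.ord_zero] at h0
    omega
  set g := f - algebraMap k K c with hg
  have h2 : g ≠ 0 ∧ P₀.ord g = -1 := by
    apply ord_of_sub P₀ hf0 h0
    have : g - f = -algebraMap k K c := by rw [hg]; ring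
    rw [this]
    simpa using (Ge.const (P := P₀) c).neg
  have h3 : ∀ P, P ≠ P₀ → 0 ≤ P.ord g := by
    intro P hP'
    exact ((h1 P hP').sub (Ge.const c)).resolve_left h2.1
  have h4 : 1 ≤ o.ord g := hc.resolve_left h2.1
  refine ⟨g⁻¹, ?_, ?_⟩
  · set T : Finset (Place k K) := (finite_support (k := k) g).toFinset ∪ {o, P₀} with hT
    have h5 := sum_ord_finset g T (by intro P hP; simp [hT, hP])
    have ho : o ∈ T := by simp [hT]
    have hp : P₀ ∈ T.erase o := by
      rw [Finset.mem_erase]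
      exact ⟨fun h => hP h.symm, by simp [hT]⟩
    rw [← Finset.add_sum_erase _ _ ho, ← Finset.add_sum_erase _ _ hp, h2.2] at h5
    have h6 : 0 ≤ ∑ P ∈ (T.erase o).erase P₀, P.ord g :=
      Finset.sum_nonneg fun P hP => h3 P (Finset.ne_of_mem_erase hP)
    rw [o.ord_inv]
    omega
  · intro P hPo
    right
    rw [P.ord_inv]
    by_cases hP0 : P = P₀
    · subst hP0
      omega
    set T : Finset (Place k K) := (finite_support (k := k) g).toFinset ∪ {o, P₀, P} with hT
    have h5 := sum_ord_finset g T (by intro Q hQ; simp [hT, hQ])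
    have ho : o ∈ T := by simp [hT]
    have hp : P₀ ∈ T.erase o := by
      rw [Finset.mem_erase]
      exact ⟨fun h => hP h.symm, by simp [hT]⟩
    have hpp : P ∈ (T.erase o).erase P₀ := by
      rw [Finset.mem_erase, Finset.mem_erase]
      exact ⟨hP0, hPo, by simp [hT]⟩
    rw [← Finset.add_sum_erase _ _ ho, ← Finset.add_sum_erase _ _ hp,
      ← Finset.add_sum_erase _ _ hpp, h2.2] at h5
    have h6 : 0 ≤ ∑ Q ∈ ((T.erase o).erase P₀).erase P, Q.ord g :=
      Finset.sum_nonneg fun Q hQ =>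
        h3 Q (Finset.ne_of_mem_erase (Finset.mem_of_mem_erase hQ))
    omega

end

/-- The polynomial identity. -/
theorem poly_const {k : Type} [Field k] [IsAlgClosed k] [CharZero k] {lam : k} (h0 : lam ≠ 0)
    (h1 : lam ≠ 1) {p q : k[X]} (h : q ^ 2 = p * (p - 1) * (p - C lam)) : ∃ c, p = C c := by
  have hc1 : IsCoprime p ((p - 1) * (p - C lam)) := by
    apply IsCoprime.mul_right
    · exact ⟨1, -1, by ring⟩
    · refine ⟨C lam⁻¹, -C lam⁻¹, ?_⟩
      have : C lam⁻¹ * C lam = 1 := by rw [← C_mul, inv_mul_cancel₀ h0, C_1]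
      linear_combination this
  have hc2 : IsCoprime (p - 1) p := ⟨-1, 1, by ring⟩
  have hc3 : IsCoprime (p - 1) (p * (p - C lam)) := by
    apply IsCoprime.mul_right hc2
    have hl : lam - 1 ≠ 0 := sub_ne_zero.2 h1
    refine ⟨C (lam - 1)⁻¹, -C (lam - 1)⁻¹, ?_⟩
    have : C (lam - 1)⁻¹ * (C lam - 1) = 1 := by
      rw [← C_1, ← C_sub, ← C_mul, inv_mul_cancel₀ hl]
    linear_combination this
  obtain ⟨a, ha⟩ := exists_associated_pow_of_mul_eq_pow' hc1 (k := 2) (c := q) (by rw [h]; ring)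
  obtain ⟨b, hb⟩ := exists_associated_pow_of_mul_eq_pow' hc3 (k := 2) (c := q) (by rw [h]; ring)
  obtain ⟨u, hu⟩ := ha
  obtain ⟨v, hv⟩ := hb
  obtain ⟨u', hu', hu2⟩ := Polynomial.isUnit_iff.1 u.isUnit
  obtain ⟨v', hv', hv2⟩ := Polynomial.isUnit_iff.1 v.isUnit
  obtain ⟨s, hs⟩ := IsAlgClosed.exists_pow_nat_eq u' (n := 2) (by norm_num)
  obtain ⟨t, ht⟩ := IsAlgClosed.exists_pow_nat_eq v' (n := 2) (by norm_num)
  have e1 : p = (a * C s) ^ 2 := by
    rw [mul_pow, ← C_pow, hs, hu2, hu]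
  have e2 : p - 1 = (b * C t) ^ 2 := by
    rw [mul_pow, ← C_pow, ht, hv2, hv]
  have e3 : (a * C s - b * C t) * (a * C s + b * C t) = 1 := by
    linear_combination -e1 + e2
  have e4 : IsUnit (a * C s - b * C t) := IsUnit.of_mul_eq_one _ e3
  have e5 : IsUnit (a * C s + b * C t) := by
    rw [mul_comm] at e3
    exact IsUnit.of_mul_eq_one _ e3
  obtain ⟨r, -, hr⟩ := Polynomial.isUnit_iff.1 e4
  obtain ⟨r', -, hr'⟩ := Polynomial.isUnit_iff.1 e5
  have e6 : a * C s = C ((r + r') / 2) := by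
    have h2 : (2 : k[X]) * C (2 : k)⁻¹ = 1 := by
      rw [← C_ofNat, ← C_mul, mul_inv_cancel₀ (by norm_num), C_1]
    rw [div_eq_mul_inv, C_mul, C_add, hr, hr']
    linear_combination (-(a * C s)) * h2
  exact ⟨((r + r') / 2) ^ 2, by rw [e1, e6, C_pow]⟩

theorem stmNo1 (hInf : StmInf) : StmNo1 := by
  intro k K _ _ _ _ _ _ lam x y hE f P₀ h0 h1
  obtain ⟨o, hox, hoy, ho⟩ := hInf k K lam x y hE
  obtain ⟨F, hF, hF'⟩ := move_pole h0 h1 o
  obtain ⟨p, hp⟩ := poly_of_reg hF hF' 2 x (fun P hP => (ho P hP).1) (Or.inr (by omega))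
  obtain ⟨q, hq⟩ := poly_of_reg hF hF' 3 y (fun P hP => (ho P hP).2) (Or.inr (by omega))
  have hFt : Transcendental k F := o.transcendental_of_ord_ne (by omega)
  have hpq : q ^ 2 = p * (p - 1) * (p - C lam) := by
    apply (transcendental_iff_injective.1 hFt)
    rw [map_pow, map_mul, map_mul, map_sub, map_sub, map_one, aeval_C, ← hp, ← hq]
    exact hE.eqn
  obtain ⟨c, hc⟩ := poly_const hE.lam0 hE.lam1 hpq
  apply hE.tr
  rw [hp, hc, aeval_C]
  exact isAlgebraic_algebraMap c

end Pool.Agent.Y352.DP
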