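import Pool.Agent.Y352.DP.No1

/-! Points of prime height generate the function field or lie on a line. -/

set_option autoImplicit false
set_option linter.unusedSectionVars false

namespace Pool.Agent.Y352.DP

open Polynomial FF IntermediateField Pool.Agent.W603.LV Pool.Agent.Y166.DP

section
variable {k K : Type} [Field k] [Field K] [Algebra k K]

/-- The combinations of the functions `g` of order at least `n` at `P`. -/
def combSub (P : Place k K) (n : ℤ) {ι : Type} [Fintype ι] (g : ι → K) :
    Submodule k (ι → k) where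
  carrier := {b | Ge P n (∑ i, algebraMap k K (b i) * g i)}
  zero_mem' := by
    left
    simp
  add_mem' := by
    intro b c hb hc
    have : ∑ i, algebraMap k K ((b + c) i) * g i =
        ∑ i, algebraMap k K (b i) * g i + ∑ i, algebraMap k K (c i) * g i := by
      rw [← Finset.sum_add_distrib]
      refine Finset.sum_congr rfl fun i _ => ?_
      rw [Pi.add_apply, map_add, add_mul]
    show Ge P n _
    rw [this]
    exact Ge.add hb hc
  smul_mem' := by
    intro a b hb
    have : ∑ i, algebraMap k K ((a • b) i) * g i =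
        algebraMap k K a * ∑ i, algebraMap k K (b i) * g i := by
      rw [Finset.mul_sum]
      refine Finset.sum_congr rfl fun i _ => ?_
      rw [Pi.smul_apply, smul_eq_mul, map_mul, mul_assoc]
    show Ge P n _
    rw [this]
    simpa using (Ge.const (P := P) a).mul hb

theorem mem_combSub {P : Place k K} {n : ℤ} {ι : Type} [Fintype ι] {g : ι → K} {b : ι → k} :
    b ∈ combSub P n g ↔ Ge P n (∑ i, algebraMap k K (b i) * g i) := Iff.rfl

theorem combSub_ne_top (P : Place k K) {ι : Type} [Fintype ι] {g : ι → K} (hg : g ≠ 0) :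
    combSub P (mo P g + 1) g ≠ ⊤ := by
  classical
  obtain ⟨i, hi, e⟩ := exists_mo P hg
  intro h
  have h1 : Pi.single i (1 : k) ∈ combSub P (mo P g + 1) g := by rw [h]; trivial
  rw [mem_combSub] at h1
  have h2 : ∑ j, algebraMap k K ((Pi.single i (1 : k) : ι → k) j) * g j = g i := by
    rw [Finset.sum_eq_single i]
    · simp
    · intro j _ hj
      rw [Pi.single_eq_of_ne hj]
      simp
    · simp
  rw [h2] at h1
  exact not_ge_of_ord hi e (by omega) h1

/-- A combination with the minimal order at finitely many places. -/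
theorem exists_comb [Infinite k] {ι : Type} [Fintype ι] {g : ι → K} (hg : g ≠ 0)
    (S : Finset (Place k K)) :
    ∃ b : ι → k, ∀ P ∈ S, ¬ Ge P (mo P g + 1) (∑ i, algebraMap k K (b i) * g i) := by
  classical
  have h := Subspace.biUnion_ne_univ_of_top_notMem
    (s := S.image fun P => combSub P (mo P g + 1) g) (by
      intro h
      rw [Finset.mem_image] at h
      obtain ⟨P, _, hP⟩ := h
      exact combSub_ne_top P hg hP)
  rw [Set.ne_univ_iff_exists_notMem] at h
  obtain ⟨b, hb⟩ := h
  refine ⟨b, fun P hP hc => hb ?_⟩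
  rw [Set.mem_iUnion₂]
  exact ⟨_, Finset.mem_image_of_mem _ hP, hc⟩

theorem ge_comb (P : Place k K) {ι : Type} [Fintype ι] (g : ι → K) (b : ι → k) :
    Ge P (mo P g) (∑ i, algebraMap k K (b i) * g i) := by
  refine Ge.sum _ _ fun i _ => ?_
  simpa using (Ge.const (P := P) (b i)).mul (ge_mo P g i)

theorem ord_aeval_pole {P : Place k K} {v : K} (hv : P.ord v < 0) (A : k[X]) (hA : A ≠ 0) :
    aeval v A ≠ 0 ∧ P.ord (aeval v A) = A.natDegree * P.ord v := by
  have hv0 : v ≠ 0 := by
    rintro rfl
    rw [P.ord_zero] at hv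
    omega
  have hl : A.leadingCoeff ≠ 0 := leadingCoeff_ne_zero.2 hA
  have hl' : algebraMap k K A.leadingCoeff ≠ 0 := by simpa using hl
  have h1 : P.ord (algebraMap k K A.leadingCoeff * v ^ A.natDegree) = A.natDegree * P.ord v := by
    rw [P.ord_mul hl' (pow_ne_zero _ hv0), P.ord_const hl, P.ord_pow, zero_add]
  have h2 : aeval v A = algebraMap k K A.leadingCoeff * v ^ A.natDegree +
      ∑ i ∈ Finset.range A.natDegree, algebraMap k K (A.coeff i) * v ^ i := by
    rw [aeval_eq_sum_range, Finset.sum_range_succ, add_comm]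
    simp only [Algebra.smul_def]
    rfl
  rw [h2]
  apply ord_of_add P (mul_ne_zero hl' (pow_ne_zero _ hv0)) h1
  refine Ge.sum _ _ fun i hi => ?_
  have hi' := Finset.mem_range.1 hi
  have h3 : Ge P (i * P.ord v) (v ^ i) := Or.inr (by rw [P.ord_pow])
  have h4 := (Ge.const (P := P) (A.coeff i)).mul h3
  refine h4.mono ?_
  have h5 : ((A.natDegree : ℤ) - i - 1) * P.ord v ≤ 0 :=
    mul_nonpos_of_nonneg_of_nonpos (by omega) hv.le
  have h6 : (A.natDegree : ℤ) * P.ord v + 1 ≤ i * P.ord v := by
    have : ((A.natDegree : ℤ) - i - 1) * P.ord v =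
      A.natDegree * P.ord v - i * P.ord v - P.ord v := by ring
    omega
  omega

variable [CharZero k] [IsFF k K] [IsAlgClosed k]

/-- A transcendental function takes every value. -/
theorem exists_value {v : K} (hv : Transcendental k v) (c : k) :
    ∃ P : Place k K, 0 < P.ord (v - algebraMap k K c) := by
  have hvc : Transcendental k (v - algebraMap k K c) := by
    intro h
    apply hv
    have := h.add (isAlgebraic_algebraMap c)
    rwa [sub_add_cancel] at this
  obtain ⟨S, hS1, hS2, hS3⟩ := zeros hvc
  haveI := IsFF.finite hvc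
  have h1 : 0 < Module.finrank k⟮v - algebraMap k K c⟯ K := Module.finrank_pos
  rw [← hS3] at h1
  obtain ⟨P, hP, -⟩ := Finset.exists_ne_zero_of_sum_ne_zero h1.ne'
  exact ⟨P, (hS1 P).1 hP⟩

/-- A rational function of `v` that is regular wherever `v` is regular is a polynomial in `v`. -/
theorem poly_of_mul {v : K} (hv : Transcendental k v) {f : K}
    (hf : ∀ P : Place k K, Ge P 0 v → Ge P 0 f) (n : ℕ) :
    ∀ B A : k[X], B.natDegree = n → B ≠ 0 → f * aeval v B = aeval v A →
      ∃ A' : k[X], f = aeval v A' := by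
  induction n with
  | zero =>
    intro B A hB hB0 h
    obtain ⟨c, rfl⟩ := natDegree_eq_zero.1 hB
    have hc : c ≠ 0 := by
      rintro rfl
      simp at hB0
    refine ⟨C c⁻¹ * A, ?_⟩
    rw [map_mul, ← h, aeval_C, aeval_C, mul_comm f, ← mul_assoc, ← map_mul, inv_mul_cancel₀ hc,
      map_one, one_mul]
  | succ n ih =>
    intro B A hB hB0 h
    have hdeg : B.degree ≠ 0 := by
      rw [degree_eq_natDegree hB0, hB]
      exact_mod_cast Nat.succ_ne_zero n
    obtain ⟨c, hc⟩ := IsAlgClosed.exists_root B hdeg
    obtain ⟨B', hB'⟩ := dvd_iff_isRoot.2 hc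
    obtain ⟨P, hP⟩ := exists_value hv c
    have hvc0 : v - algebraMap k K c ≠ 0 := by
      intro h0
      rw [h0, P.ord_zero] at hP
      omega
    have hvc : Ge P 1 (v - algebraMap k K c) := Or.inr hP
    have hvreg : Ge P 0 v := by
      have := (hvc.mono (by omega : (0 : ℤ) ≤ 1)).add (Ge.const (P := P) c)
      rwa [sub_add_cancel] at this
    have hXc : aeval v (X - C c) = v - algebraMap k K c := by
      rw [map_sub, aeval_X, aeval_C]
    have h1 : Ge P 1 (aeval v A) := by
      rw [← h, hB', map_mul, hXc]
      have := (hf P hvreg).mul (hvc.mul (ge_aeval P hvreg B'))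
      simpa using this
    have hAroot : A.IsRoot c := by
      obtain ⟨A', hA'⟩ := X_sub_C_dvd_sub_C_eval (a := c) (p := A)
      have h2 : aeval v A - algebraMap k K (A.eval c) =
          (v - algebraMap k K c) * aeval v A' := by
        rw [← hXc, ← map_mul, ← hA', map_sub, aeval_C]
      have h3 : Ge P 1 (algebraMap k K (A.eval c)) := by
        have h4 : algebraMap k K (A.eval c) =
            aeval v A - (v - algebraMap k K c) * aeval v A' := by rw [← h2]; ring
        rw [h4]
        refine h1.sub ?_
        simpa using hvc.mul (ge_aeval P hvreg A')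
      by_contra hne
      rcases h3 with h3 | h3
      · exact hne (by simpa using h3)
      · rw [P.ord_const hne] at h3
        omega
    obtain ⟨A', hA'⟩ := dvd_iff_isRoot.2 hAroot
    have hB'0 : B' ≠ 0 := by
      rintro rfl
      rw [mul_zero] at hB'
      exact hB0 hB'
    refine ih B' A' ?_ hB'0 ?_
    · rw [hB', natDegree_mul (X_sub_C_ne_zero c) hB'0, natDegree_X_sub_C] at hB
      omega
    · rw [hB', hA', map_mul, map_mul, hXc] at h
      apply mul_left_cancel₀ hvc0
      rw [← h]
      ring

/-- A rational function of `v` with poles at most those of `v` is affine linear in `v`. -/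
theorem affine_of_mem {v : K} (hv : Transcendental k v) {f : K} (hm : f ∈ k⟮v⟯)
    (hf : ∀ P : Place k K, Ge P (min (P.ord v) 0) f) :
    ∃ a b : k, f = algebraMap k K a + algebraMap k K b * v := by
  have hv0 : v ≠ 0 := by
    rintro rfl
    exact hv (isAlgebraic_zero)
  have hreg : ∀ P : Place k K, Ge P 0 v → Ge P 0 f := by
    intro P hP
    have h1 := hf P
    have h2 := hP.resolve_left hv0
    rwa [min_eq_right h2] at h1
  obtain ⟨A, B, hAB⟩ := IntermediateField.mem_adjoin_simple_iff k f |>.1 hm
  by_cases hf0 : f = 0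
  · exact ⟨0, 0, by simp [hf0]⟩
  have hB : aeval v B ≠ 0 := by
    intro h
    rw [h, div_zero] at hAB
    exact hf0 hAB
  have hB0 : B ≠ 0 := by
    rintro rfl
    simp at hB
  obtain ⟨A', hA'⟩ := poly_of_mul hv hreg B.natDegree B A rfl hB0 (by
    rw [hAB, div_mul_cancel₀ _ hB])
  have hA0 : A' ≠ 0 := by
    rintro rfl
    exact hf0 (by simpa using hA')
  obtain ⟨S, hS1, hS3⟩ := poles hv
  haveI := IsFF.finite hv
  have h1 : 0 < Module.finrank k⟮v⟯ K := Module.finrank_pos
  rw [← hS3] at h1
  obtain ⟨P, hP, -⟩ := Finset.exists_ne_zero_of_sum_ne_zero h1.ne'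
  have hPv := (hS1 P).1 hP
  have h2 := ord_aeval_pole hPv A' hA0
  rw [← hA'] at h2
  have h3 := (hf P).resolve_left hf0
  rw [h2.2, min_eq_left hPv.le] at h3
  have h4 : A'.natDegree ≤ 1 := by
    by_contra hcon
    push Not at hcon
    have : (A'.natDegree - 2 : ℤ) * P.ord v ≤ 0 :=
      mul_nonpos_of_nonneg_of_nonpos (by omega) hPv.le
    have h5 : (A'.natDegree - 2 : ℤ) * P.ord v = A'.natDegree * P.ord v - 2 * P.ord v := by ring
    omega
  refine ⟨A'.coeff 0, A'.coeff 1, ?_⟩
  rw [hA', eq_X_add_C_of_natDegree_le_one h4]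
  simp
  ring

end

theorem stmPrime : StmPrime := by
  intro k K _ _ _ _ _ _ g p hp hht
  classical
  by_contra hcon
  push Not at hcon
  obtain ⟨hlin, i₀, hi₀, hne⟩ := hcon
  haveI : Infinite k := IsAlgClosed.instInfinite 
  have hg : g ≠ 0 := fun h => hi₀ (by rw [h]; rfl)
  set g' : Fin 3 → K := fun i => (g i₀)⁻¹ * g i with hg'
  have hinv : (g i₀)⁻¹ ≠ 0 := inv_ne_zero hi₀
  have hg'i : g' i₀ = 1 := inv_mul_cancel₀ hi₀
  have hg'0 : g' ≠ 0 := fun h => by
    rw [h] at hg'i
    exact zero_ne_one hg'i
  have hht' : ht k g' = p := by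
    rw [← hht]
    exact ht_smul hg hinv
  have hmo : ∀ P : Place k K, mo P g' ≤ 0 := by
    intro P
    have := mo_le P (g := g') (i := i₀) (by rw [hg'i]; exact one_ne_zero)
    rwa [hg'i, P.ord_one] at this
  obtain ⟨b, hb⟩ := exists_comb hg'0 (mo_supp (k := k) g').toFinset
  set v : K := ∑ i, algebraMap k K (b i) * g' i with hv
  have hmin : ∀ P : Place k K, mo P g' = min (P.ord v) 0 ∧ (mo P g' ≠ 0 → v ≠ 0) := by
    intro P
    have h1 : Ge P (mo P g') v := ge_comb P g' b
    by_cases hP : mo P g' = 0
    · refine ⟨?_, fun h => absurd hP h⟩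
      rw [hP] at h1 ⊢
      rcases h1 with h1 | h1
      · rw [h1, P.ord_zero]
        rfl
      · rw [min_eq_right h1]
    · have h2 := hb P (by simpa using hP)
      have hv0 : v ≠ 0 := fun h => h2 (Or.inl h)
      refine ⟨?_, fun _ => hv0⟩
      have h3 := h1.resolve_left hv0
      have h4 : ¬ mo P g' + 1 ≤ P.ord v := fun h => h2 (Or.inr h)
      have h5 := hmo P
      rw [min_eq_left (by omega)]
      omega
  have hvt : Transcendental k v := by
    obtain ⟨P, hP⟩ : ∃ P : Place k K, mo P g' ≠ 0 := by
      by_contra hcon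
      push Not at hcon
      have : ht k g' = 0 := by
        unfold ht
        simp [hcon]
      rw [hht'] at this
      exact hp.ne_zero (by exact_mod_cast this)
    apply P.transcendental_of_ord_ne
    intro h
    have := (hmin P).1
    rw [h, min_self] at this
    exact hP this
  have hdeg : Module.finrank k⟮v⟯ K = p := by
    have h1 := ddeg_polar hvt
    have h2 : ddeg (polar (k := k) v) = ht k g' := by
      unfold ddeg ht Finsupp.sum
      rw [← finsum_neg_distrib, finsum_eq_sum_of_support_subset (s := (polar (k := k) v).support)]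
      · refine Finset.sum_congr rfl fun P _ => ?_
        beta_reduce
        rw [deg_one, Nat.cast_one, mul_one, polar_apply, (hmin P).1]
        omega
      · intro P hP
        simp only [Finset.coe_sort_coe, Function.mem_support, ne_eq, neg_eq_zero] at hP
        rw [Finset.mem_coe, Finsupp.mem_support_iff, polar_apply]
        rw [(hmin P).1] at hP
        omega
    rw [h2, hht'] at h1
    exact_mod_cast h1.symm
  set F₀ : IntermediateField k K :=
    IntermediateField.adjoin k (Set.range fun i => g i / g i₀) with hF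
  have hmem : ∀ i, g' i ∈ F₀ := by
    intro i
    apply IntermediateField.subset_adjoin
    exact ⟨i, by simp only [hg']; rw [div_eq_mul_inv, mul_comm]⟩
  have hvF : k⟮v⟯ ≤ F₀ := by
    rw [IntermediateField.adjoin_simple_le_iff, hv]
    refine sum_mem fun i _ => ?_
    exact mul_mem (F₀.algebraMap_mem _) (hmem i)
  have hdvd := IntermediateField.finrank_dvd_of_le_left hvF
  rw [hdeg] at hdvd
  haveI := IsFF.finite hvt
  rcases (Nat.dvd_prime hp).1 hdvd with h1 | h1
  · apply hne
    exact IntermediateField.finrank_eq_one_iff_eq_top.1 h1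
  · have heq : k⟮v⟯ = F₀ := IntermediateField.eq_of_le_of_finrank_eq' hvF (by rw [hdeg, h1])
    have haff : ∀ i, ∃ a b : k, g' i = algebraMap k K a + algebraMap k K b * v := by
      intro i
      apply affine_of_mem hvt
      · rw [heq]
        exact hmem i
      · intro P
        rw [← (hmin P).1]
        exact ge_mo P g' i
    choose α β hαβ using haff
    let L : (Fin 3 → k) →ₗ[k] (Fin 2 → k) := Matrix.mulVecLin (Matrix.of ![α, β])
    have hL : LinearMap.ker L ≠ ⊥ := by
      apply LinearMap.ker_ne_bot_of_finrank_lt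
      simp
    obtain ⟨a, ha, ha0⟩ := (Submodule.ne_bot_iff _).1 hL
    rw [LinearMap.mem_ker] at ha
    have e1 : α 0 * a 0 + α 1 * a 1 + α 2 * a 2 = 0 := by
      have := congrFun ha 0
      simpa [L, Matrix.mulVec, dotProduct, Fin.sum_univ_three] using this
    have e2 : β 0 * a 0 + β 1 * a 1 + β 2 * a 2 = 0 := by
      have := congrFun ha 1
      simpa [L, Matrix.mulVec, dotProduct, Fin.sum_univ_three] using this
    apply hlin a ha0
    have h5 : ∑ i, algebraMap k K (a i) * g' i = 0 := by
      rw [Fin.sum_univ_three, hαβ 0, hαβ 1, hαβ 2]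
      have e1' := congrArg (algebraMap k K) e1
      have e2' := congrArg (algebraMap k K) e2
      simp only [map_add, map_mul, map_zero] at e1' e2'
      linear_combination e1' + v * e2'
    have h6 : ∑ i, algebraMap k K (a i) * g i = g i₀ * ∑ i, algebraMap k K (a i) * g' i := by
      rw [Finset.mul_sum]
      refine Finset.sum_congr rfl fun i _ => ?_
      simp only [hg']
      field_simp
    rw [h6, h5, mul_zero]

end Pool.Agent.Y352.DP
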