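import Pool.Agent.Y352.DP.Basis
import Pool.Agent.Helper386.D5V.Helper386_FF_Riemann

/-! Riemann-Roch for divisors of positive degree on an elliptic curve. -/

set_option autoImplicit false
set_option linter.unusedSectionVars false

namespace Pool.Agent.Y352.DP

open FF Pool.Agent.W603.LV Pool.Agent.Y166.DP

section
variable {k K : Type} [Field k] [Field K] [Algebra k K]

theorem fn_const_smul (x y : K) {N : ℕ} (a : k) (c : Fin N → k) :
    fsum x y (a • c) = a • fsum x y c := by
  unfold fsum
  rw [Finset.smul_sum]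
  refine Finset.sum_congr rfl fun j _ => ?_
  rw [Pi.smul_apply, smul_eq_mul, map_mul, Algebra.smul_def]
  ring

theorem fsum_add (x y : K) {N : ℕ} (c d : Fin N → k) :
    fsum x y (c + d) = fsum x y c + fsum x y d := by
  unfold fsum
  rw [← Finset.sum_add_distrib]
  refine Finset.sum_congr rfl fun j _ => ?_
  rw [Pi.add_apply, map_add]
  ring

/-- The linear map `fsum`. -/
def fsumL (k : Type) {K : Type} [Field k] [Field K] [Algebra k K] (x y : K) (N : ℕ) :
    (Fin N → k) →ₗ[k] K where
  toFun c := fsum x y c
  map_add' := fsum_add x y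
  map_smul' a c := by simpa using fn_const_smul x y a c

variable [CharZero k] [IsFF k K] [IsAlgClosed k]

theorem ddeg_single_one (P : Place k K) (n : ℤ) : ddeg (Finsupp.single P n) = n := by
  rw [ddeg_single, deg_one, Nat.cast_one, mul_one]

theorem eq_zero_of_ddeg {E : Place k K →₀ ℤ} (h0 : 0 ≤ E) (h1 : ddeg E = 0) : E = 0 := by
  unfold ddeg Finsupp.sum at h1
  rw [Finset.sum_eq_zero_iff_of_nonneg] at h1
  · ext P
    by_cases hP : P ∈ E.support
    · have := h1 P hP
      beta_reduce at this
      rw [deg_one, Nat.cast_one, mul_one] at this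
      simpa using this
    · simpa using hP
  · intro P _
    have : 0 ≤ E P := h0 P
    positivity

theorem eq_single_of_ddeg {E : Place k K →₀ ℤ} (h0 : 0 ≤ E) (h1 : ddeg E = 1) :
    ∃ P, E = Finsupp.single P 1 := by
  have hne : E ≠ 0 := by
    rintro rfl
    rw [ddeg_zero] at h1
    omega
  obtain ⟨P, hP⟩ := Finsupp.ne_iff.1 hne
  rw [Finsupp.zero_apply] at hP
  have h2 : 0 ≤ E P := h0 P
  refine ⟨P, ?_⟩
  have h3 : (0 : Place k K →₀ ℤ) ≤ E - Finsupp.single P 1 := by
    intro Q
    rw [Finsupp.zero_apply, Finsupp.sub_apply]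
    by_cases hQ : P = Q
    · subst hQ
      rw [Finsupp.single_eq_same]
      omega
    · rw [Finsupp.single_eq_of_ne' hQ, sub_zero]
      exact h0 Q
  have h4 := eq_zero_of_ddeg h3 (by rw [ddeg_sub, ddeg_single_one, h1, sub_self])
  exact sub_eq_zero.1 h4

end

theorem ell_single (hB : StmBasis) {k K : Type} [Field k] [Field K] [Algebra k K]
    [CharZero k] [IsAlgClosed k] [IsFF k K] {lam : k} {x y : K} (hE : Ell k K lam x y)
    {o : Place k K} (ho : o.ord x < 0) {n : ℕ} (hn : 0 < n) :
    ell (Finsupp.single o (n : ℤ)) = n := by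
  obtain ⟨h1, h2, h3⟩ := hB k K lam x y hE o ho
  have h4 : LinearMap.range (fsumL k x y n) = LL (Finsupp.single o (n : ℤ)) := by
    ext f
    rw [LinearMap.mem_range]
    have h5 := h3 n hn f
    have h6 : f ∈ LL (Finsupp.single o (n : ℤ)) ↔
        (∀ P, P ≠ o → Ge P 0 f) ∧ Ge o (-(n : ℤ)) f := by
      rw [mem_LL]
      constructor
      · rintro (h | h)
        · exact ⟨fun P _ => Or.inl h, Or.inl h⟩
        · refine ⟨fun P hP => Or.inr ?_, Or.inr ?_⟩
          · have := h P
            rw [Finsupp.single_eq_of_ne hP] at this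
            simpa using this
          · have := h o
            rwa [Finsupp.single_eq_same] at this
      · rintro ⟨ha, hb⟩
        by_cases hf : f = 0
        · exact Or.inl hf
        · right
          intro P
          by_cases hP : P = o
          · subst hP
            rw [Finsupp.single_eq_same]
            exact hb.resolve_left hf
          · rw [Finsupp.single_eq_of_ne hP]
            simpa using (ha P hP).resolve_left hf
    rw [h6, h5]
    constructor
    · rintro ⟨c, rfl⟩
      exact ⟨c, rfl⟩
    · rintro ⟨c, rfl⟩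
      exact ⟨c, rfl⟩
  unfold ell
  rw [← h4, LinearMap.finrank_range_of_inj]
  · simp
  · rw [← LinearMap.ker_eq_bot, LinearMap.ker_eq_bot']
    exact fun c hc => h2 n c hc

theorem stmRR (hInf : StmInf) (hNo : StmNo1) (hB : StmBasis) : StmRR := by
  intro k K _ _ _ _ _ _ lam x y hE D hD
  obtain ⟨o, hox, hoy, -⟩ := hInf k K lam x y hE
  have ho : o.ord x < 0 := by omega
  obtain ⟨γ, N, hγ, hN⟩ := riemann k K
  have hγ0 : γ = 0 := by
    set n : ℕ := N.toNat + 1 with hn
    have h1 := ell_single hB hE ho (n := n) (by omega)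
    have h2 := hN (Finsupp.single o (n : ℤ)) (by rw [ddeg_single_one]; omega)
    rw [ddeg_single_one, h1] at h2
    omega
  subst hγ0
  have hlow : ∀ E : Place k K →₀ ℤ, ddeg E ≤ ell E := fun E => by simpa using hγ E
  have hone : ∀ P : Place k K, ell (Finsupp.single P (1 : ℤ)) ≤ 1 := by
    intro P
    have h1 : LL (Finsupp.single P (1 : ℤ)) ≤ Submodule.span k {(1 : K)} := by
      intro g hg
      rw [mem_LL] at hg
      have hreg : ∀ Q, Q ≠ P → Ge Q 0 g := by
        intro Q hQ
        rcases hg with hg | hg
        · exact Or.inl hg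
        · have := hg Q
          rw [Finsupp.single_eq_of_ne hQ] at this
          exact Or.inr (by simpa using this)
      have hall : ∀ Q : Place k K, Ge Q 0 g := by
        intro Q
        by_cases hQ : Q = P
        · subst hQ
          by_contra hcon
          have hg0 : g ≠ 0 := fun h => hcon (Or.inl h)
          have h2 := (hg.resolve_left hg0) Q
          rw [Finsupp.single_eq_same] at h2
          have h3 : ¬ 0 ≤ Q.ord g := fun h => hcon (Or.inr h)
          exact hNo k K lam x y hE g Q (by omega) hreg
        · exact hreg Q hQ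
      obtain ⟨c, hc⟩ := const_of_reg hall
      rw [Submodule.mem_span_singleton]
      exact ⟨c, by rw [hc, Algebra.smul_def, mul_one]⟩
    have h2 : Module.finrank k (LL (Finsupp.single P (1 : ℤ))) ≤
        Module.finrank k (Submodule.span k {(1 : K)}) := Submodule.finrank_mono h1
    have h3 : Module.finrank k (Submodule.span k {(1 : K)}) ≤ 1 := by
      rw [finrank_span_singleton one_ne_zero]
    unfold ell
    exact_mod_cast h2.trans h3
  have hdeg1 : ∀ E : Place k K →₀ ℤ, ddeg E = 1 → ell E ≤ 1 := by
    intro E hE1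
    obtain ⟨f, hf, hf0⟩ := exists_ne_zero_of_ell_pos (D := E) (by have := hlow E; omega)
    rw [← ell_add_divisor E hf0]
    rw [mem_LL' hf0, add_comm] at hf
    obtain ⟨P, hP⟩ := eq_single_of_ddeg hf (by rw [ddeg_add, ddeg_divisor, hE1, add_zero])
    rw [hP]
    exact hone P
  apply le_antisymm _ (hlow D)
  have h5 : D - Finsupp.single o (ddeg D - 1) ≤ D := by
    intro Q
    rw [Finsupp.sub_apply]
    by_cases hQ : Q = o
    · subst hQ
      rw [Finsupp.single_eq_same]
      omega
    · rw [Finsupp.single_eq_of_ne hQ, sub_zero]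
  have h6 := ell_le h5
  have h7 : ddeg (D - Finsupp.single o (ddeg D - 1)) = 1 := by
    rw [ddeg_sub, ddeg_single_one]
    ring
  have h8 := hdeg1 _ h7
  omega

end Pool.Agent.Y352.DP
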